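import Mathlib

set_option autoImplicit false

/-!
# Nonreflecting stationary sets of points of countable cofinality: ladders are locally disjoint
-/

namespace Pool.Agent.N289.NR

open Set Cardinal

universe u

variable {K : Type u} [LinearOrder K]

/-- `η` is a strictly increasing sequence with supremum `α` -/
def IsLadder (η : ℕ → K) (α : K) : Prop :=
  StrictMono η ∧ (∀ n, η n < α) ∧ ∀ β < α, ∃ n, β ≤ η n

/-- `β` is a limit point of `C`: there are members of `C` below `β`, arbitrarily near to `β` -/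
def LimitPoint (C : Set K) (β : K) : Prop := (∃ γ, γ < β) ∧ ∀ γ < β, ∃ c ∈ C, γ < c ∧ c < β

/-- `C` is closed and unbounded in `K` -/
def IsClub (C : Set K) : Prop := (∀ β, ∃ c ∈ C, β < c) ∧ ∀ β, LimitPoint C β → β ∈ C

/-- `C` is closed and unbounded in the initial segment `{β | β < δ}` -/
def IsClubBelow (C : Set K) (δ : K) : Prop :=
  (∀ β < δ, ∃ c ∈ C, β < c ∧ c < δ) ∧ ∀ β < δ, LimitPoint C β → β ∈ C

/-- `S` is stationary in `K` -/
def Stationary (S : Set K) : Prop := ∀ C, IsClub C → ∃ α ∈ S, α ∈ C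

/-- `δ` is a limit of uncountable cofinality -/
def UncCof (δ : K) : Prop := (∃ γ, γ < δ) ∧ (∀ β < δ, ∃ γ, β < γ ∧ γ < δ) ∧ ¬ ∃ η : ℕ → K, IsLadder η δ

/-- `S` reflects at `δ`: `δ` has uncountable cofinality and `S ∩ δ` is stationary in `δ` -/
def ReflectsAt (S : Set K) (δ : K) : Prop :=
  UncCof δ ∧ ∀ C, IsClubBelow C δ → ∃ α ∈ S, α ∈ C ∧ α < δ

theorem IsLadder.tail {η : ℕ → K} {α : K} (h : IsLadder η α) {β : K} (hβ : β < α) :
    ∃ m, ∀ i ≥ m, β < η i := by
  obtain ⟨n, hn⟩ := h.2.2 β hβ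
  exact ⟨n + 1, fun i hi => hn.trans_lt (h.1 (by omega))⟩

/-- ladders of different points are almost disjoint: lower ladder -/
theorem IsLadder.ad {η ζ : ℕ → K} {α β : K} (hη : IsLadder η α) (hζ : IsLadder ζ β) (h : α < β) :
    ∃ m, ∀ i ≥ m, ∀ j, η i ≠ ζ j := by
  classical
  have h1 : ∃ n, α ≤ ζ n := hζ.2.2 α h
  obtain ⟨n, hn, hmin⟩ : ∃ n, α ≤ ζ n ∧ ∀ k < n, ζ k < α :=
    ⟨Nat.find h1, Nat.find_spec h1, fun k hk => not_le.1 (Nat.find_min h1 hk)⟩
  rcases Nat.eq_zero_or_pos n with rfl | hpos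
  · refine ⟨0, fun i _ j he => ?_⟩
    have := (hη.2.1 i).trans_le (hn.trans (hζ.1.monotone (Nat.zero_le j)))
    exact this.ne he
  · obtain ⟨m, hm⟩ := hη.tail (hmin (n - 1) (by omega))
    refine ⟨m, fun i hi j he => ?_⟩
    rcases lt_or_ge j n with hj | hj
    · have h2 : ζ j ≤ ζ (n - 1) := hζ.1.monotone (by omega)
      exact (h2.trans_lt (hm i hi)).ne he.symm
    · exact ((hη.2.1 i).trans_le (hn.trans (hζ.1.monotone hj))).ne he

/-- ladders of different points are almost disjoint: upper ladder -/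
theorem IsLadder.ad' {η ζ : ℕ → K} {α β : K} (hη : IsLadder η α) (hζ : IsLadder ζ β) (h : α < β) :
    ∃ m, ∀ j ≥ m, ∀ i, ζ j ≠ η i := by
  obtain ⟨m, hm⟩ := hζ.tail h
  exact ⟨m, fun j hj i he => ((hη.2.1 i).trans (hm j hj)).ne he.symm⟩

/-- the ladders of the points of `S` below `δ` have disjoint tails -/
def Dj (S : Set K) (η : K → ℕ → K) (δ : K) (m : K → ℕ) : Prop :=
  ∀ α ∈ S, ∀ β ∈ S, α < β → β < δ → ∀ i ≥ m α, ∀ j ≥ m β, η α i ≠ η β j

/-- a club disjoint from `S` below every limit `δ` -/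
theorem exists_club [WellFoundedLT K] {S : Set K} {η : K → ℕ → K} (hη : ∀ α ∈ S, IsLadder (η α) α)
    (hS : ∀ δ, ¬ ReflectsAt S δ) (δ : K) (h0 : ∃ γ, γ < δ) (hlim : ∀ β < δ, ∃ γ, β < γ ∧ γ < δ) :
    ∃ C, IsClubBelow C δ ∧ ∀ α ∈ S, α < δ → α ∉ C := by
  classical
  by_cases hc : ∃ t : ℕ → K, IsLadder t δ
  · obtain ⟨t, ht⟩ := hc
    -- successors
    have hne : ∀ n, {x | t n < x}.Nonempty := fun n => ⟨t (n + 1), ht.1 (Nat.lt_succ_self n)⟩
    let s : ℕ → K := fun n => wellFounded_lt.min _ (hne n)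
    have hs1 : ∀ n, t n < s n := fun n => wellFounded_lt.min_mem _ (hne n)
    have hs2 : ∀ n x, t n < x → s n ≤ x := fun n x hx => not_lt.1 (wellFounded_lt.not_lt_min _ hx)
    have hs3 : ∀ n, s n ≤ t (n + 1) := fun n => hs2 n _ (ht.1 (Nat.lt_succ_self n))
    refine ⟨range s, ⟨fun β hβ => ?_, fun β hβ hl => ?_⟩, fun α hα _ hmem => ?_⟩
    · obtain ⟨n, hn⟩ := ht.2.2 β hβ
      exact ⟨s n, mem_range_self n, hn.trans_lt (hs1 n), (hs3 n).trans_lt (ht.2.1 _)⟩
    · exfalso
      have h1 := ht.2.2 β hβ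
      obtain ⟨n, hn, hmin⟩ : ∃ n, β ≤ t n ∧ ∀ k < n, t k < β :=
        ⟨Nat.find h1, Nat.find_spec h1, fun k hk => not_le.1 (Nat.find_min h1 hk)⟩
      -- members of `C` below `β`
      have h2 : ∀ k, s k < β → k < n := by
        intro k hk
        by_contra hkn
        push Not at hkn
        exact absurd ((hn.trans (ht.1.monotone hkn)).trans_lt (hs1 k)) (not_lt.2 hk.le)
      rcases Nat.eq_zero_or_pos n with rfl | hpos
      · obtain ⟨γ, hγ⟩ := hl.1
        obtain ⟨c, ⟨k, rfl⟩, -, h3⟩ := hl.2 γ hγ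
        exact absurd (h2 k h3) (Nat.not_lt_zero k)
      · obtain ⟨c, ⟨k, rfl⟩, h3, h4⟩ := hl.2 (t (n - 1)) (hmin _ (by omega))
        have h5 : k = n - 1 ∨ k < n - 1 := by
          have := h2 k h4
          omega
        rcases h5 with h5 | h5
        · subst h5
          obtain ⟨c, ⟨k, rfl⟩, h6, h7⟩ := hl.2 (s (n - 1)) h4
          have h8 := h2 k h7
          have h9 : s k ≤ t (n - 1) ∨ k = n - 1 := by
            rcases Nat.lt_or_ge k (n - 1) with h | h
            · exact Or.inl ((hs3 k).trans (ht.1.monotone h))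
            · exact Or.inr (by omega)
          rcases h9 with h9 | h9
          · exact absurd (h6.trans_le h9) (not_lt.2 (hs1 (n - 1)).le)
          · rw [h9] at h6
            exact lt_irrefl _ h6
        · have h6 : s k ≤ t (n - 1) := (hs3 k).trans (ht.1.monotone h5)
          exact absurd h3 (not_lt.2 h6)
    · obtain ⟨n, rfl⟩ := hmem
      have h1 := hη _ hα
      obtain ⟨k, hk⟩ := h1.2.2 (t n) (hs1 n)
      have h2 : t n < η (s n) (k + 1) := hk.trans_lt (h1.1 (Nat.lt_succ_self k))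
      exact absurd (h1.2.1 (k + 1)) (not_lt.2 (hs2 n _ h2))
  · have h1 := hS δ
    unfold ReflectsAt at h1
    push Not at h1
    obtain ⟨C, hC, h2⟩ := h1 ⟨h0, hlim, hc⟩
    refine ⟨C, hC, fun α hα hαδ hm => ?_⟩
    exact absurd (h2 α hα hm) (not_le.2 hαδ)

/-- **ladders are locally disjoint** if the set does not reflect -/
theorem exists_dj [WellFoundedLT K] {S : Set K} {η : K → ℕ → K} (hη : ∀ α ∈ S, IsLadder (η α) α)
    (hS : ∀ δ, ¬ ReflectsAt S δ) (δ : K) : ∃ m, Dj S η δ m := by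
  classical
  induction δ using WellFoundedLT.induction with
  | ind δ ih =>
    by_cases h0 : ∃ γ, γ < δ
    swap
    · push Not at h0
      exact ⟨fun _ => 0, fun α _ β _ _ hβ => absurd hβ (not_lt.2 (h0 β))⟩
    by_cases hlim : ∀ β < δ, ∃ γ, β < γ ∧ γ < δ
    · obtain ⟨C, hC, hCS⟩ := exists_club hη hS δ h0 hlim
      -- the next element of the club
      have hne : ∀ α, α < δ → {c | c ∈ C ∧ α ≤ c ∧ c < δ}.Nonempty := by
        intro α hα
        obtain ⟨c, h1, h2, h3⟩ := hC.1 α hα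
        exact ⟨c, h1, h2.le, h3⟩
      have hex : ∀ α, ∃ e, α < δ → (e ∈ C ∧ α ≤ e ∧ e < δ) ∧ ∀ c ∈ C, α ≤ c → c < δ → e ≤ c := by
        intro α
        by_cases hα : α < δ
        · refine ⟨wellFounded_lt.min _ (hne α hα), fun _ => ⟨wellFounded_lt.min_mem _ (hne α hα), ?_⟩⟩
          intro c h1 h2 h3
          exact not_lt.1 (wellFounded_lt.not_lt_min _ (show c ∈ {c | c ∈ C ∧ α ≤ c ∧ c < δ} from
            ⟨h1, h2, h3⟩))
        · exact ⟨α, fun h => absurd h hα⟩
      choose e he using hex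
      -- the club is bounded below the points of `S`
      have hb : ∀ α, ∃ c, α ∈ S → α < δ → c < α ∧ ∀ x ∈ C, x < α → x ≤ c := by
        intro α
        by_cases hα : α ∈ S ∧ α < δ
        · have h1 : ¬ LimitPoint C α := fun h => hCS α hα.1 hα.2 (hC.2 α hα.2 h)
          unfold LimitPoint at h1
          push Not at h1
          have h2 : ∃ γ, γ < α := ⟨η α 0, (hη α hα.1).2.1 0⟩
          obtain ⟨γ, hγ, h3⟩ := h1 h2
          refine ⟨γ, fun _ _ => ⟨hγ, fun x hx hxα => ?_⟩⟩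
          by_contra hcon
          push Not at hcon
          exact absurd (h3 x hx hcon) (not_le.2 hxα)
        · exact ⟨α, fun h1 h2 => absurd ⟨h1, h2⟩ hα⟩
      choose c hc using hb
      have ht : ∀ α, ∃ m, α ∈ S → α < δ → ∀ i ≥ m, c α < η α i := by
        intro α
        by_cases hα : α ∈ S ∧ α < δ
        · obtain ⟨m, hm⟩ := (hη α hα.1).tail (hc α hα.1 hα.2).1
          exact ⟨m, fun _ _ => hm⟩
        · exact ⟨0, fun h1 h2 => absurd ⟨h1, h2⟩ hα⟩
      choose m1 hm1 using ht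
      have hmm : ∀ γ, ∃ m, γ < δ → Dj S η γ m := by
        intro γ
        by_cases hγ : γ < δ
        · obtain ⟨m, hm⟩ := ih γ hγ
          exact ⟨m, fun _ => hm⟩
        · exact ⟨fun _ => 0, fun h => absurd h hγ⟩
      choose mm hmm using hmm
      refine ⟨fun α => max (mm (e α) α) (m1 α), ?_⟩
      intro α hα β hβ hαβ hβδ i hi j hj
      have hαδ := hαβ.trans hβδ
      obtain ⟨⟨a1, a2, a3⟩, a4⟩ := he α hαδ
      obtain ⟨⟨b1, b2, b3⟩, b4⟩ := he β hβδ
      rcases lt_or_ge (e α) β with h | h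
      · have h1 : e α ≤ c β := (hc β hβ hβδ).2 _ a1 h
        have h2 : η α i < c β := ((hη α hα).2.1 i).trans_le (a2.trans h1)
        have h3 : c β < η β j := hm1 β hβ hβδ j ((le_max_right _ _).trans hj)
        exact (h2.trans h3).ne
      · have h1 : e α = e β := le_antisymm (a4 _ b1 (hαβ.le.trans b2) b3) (b4 _ a1 h a3)
        have h2 : β < e β := lt_of_le_of_ne b2 (fun h => hCS β hβ hβδ (h ▸ b1))
        have h3 := hmm (e β) b3 α hα β hβ hαβ h2
        refine h3 i ?_ j ((le_max_left _ _).trans hj)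
        rw [← h1]
        exact (le_max_left _ _).trans hi
    · push Not at hlim
      obtain ⟨δ', hδ', hmax⟩ := hlim
      obtain ⟨m, hm⟩ := ih δ' hδ'
      have hle : ∀ β, β < δ → β ≤ δ' := by
        intro β hβ
        by_contra hcon
        push Not at hcon
        exact absurd (hmax β hcon) (not_le.2 hβ)
      by_cases hS' : δ' ∈ S
      · have ht : ∀ α, ∃ m', α ∈ S → α < δ' → ∀ i ≥ m', ∀ j, η α i ≠ η δ' j := by
          intro α
          by_cases hα : α ∈ S ∧ α < δ'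
          · obtain ⟨m', hm'⟩ := (hη α hα.1).ad (hη δ' hS') hα.2
            exact ⟨m', fun _ _ => hm'⟩
          · exact ⟨0, fun h1 h2 => absurd ⟨h1, h2⟩ hα⟩
        choose m1 hm1 using ht
        refine ⟨fun α => max (m α) (m1 α), ?_⟩
        intro α hα β hβ hαβ hβδ i hi j hj
        rcases (hle β hβδ).lt_or_eq with h | h
        · exact hm α hα β hβ hαβ h i ((le_max_left _ _).trans hi) j ((le_max_left _ _).trans hj)
        · subst h
          exact hm1 α hα hαβ i ((le_max_right _ _).trans hi) j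
      · refine ⟨m, ?_⟩
        intro α hα β hβ hαβ hβδ i hi j hj
        have h1 : β < δ' := lt_of_le_of_ne (hle β hβδ) (fun h => hS' (h ▸ hβ))
        exact hm α hα β hβ hαβ h1 i hi j hj

end Pool.Agent.N289.NR
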