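import Pool.Agent.N289.NR.Top

set_option autoImplicit false
set_option linter.unusedSectionVars false

/-!
# Small closures are Eberlein compact, the space is not Corson compact
-/

namespace Pool.Agent.N289.NR

open Set Cardinal Filter Topology

/-- Eberlein compactness (of a compact space), in the form of the frozen statement: `X` embeds as a
bounded pointwise compact subset in some `c₀(Γ)`. -/
def Eb (X : Type) [TopologicalSpace X] : Prop :=
  ∃ (Γ : Type) (f : X → (Γ → ℝ)), Continuous f ∧ Function.Injective f ∧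
    (∀ x, Filter.Tendsto (f x) Filter.cofinite (nhds 0)) ∧
    ∃ M : ℝ, ∀ x γ, |f x γ| ≤ M

/-- Corson compactness (of a compact space): `X` embeds in a `Σ`-product of real lines -/
def Co (X : Type) [TopologicalSpace X] : Prop :=
  ∃ (Γ : Type) (f : X → (Γ → ℝ)), Continuous f ∧ Function.Injective f ∧
    ∀ x, {γ | f x γ ≠ 0}.Countable

/-- `X` embeds in the space of all subsets with at most two elements of some set -/
def Eb2 (X : Type) [TopologicalSpace X] : Prop :=
  ∃ (Γ : Type) (f : X → (Γ → ℝ)), Continuous f ∧ Function.Injective f ∧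
    (∀ x γ, f x γ = 0 ∨ f x γ = 1) ∧ ∀ x, {γ | f x γ ≠ 0}.encard ≤ 2

theorem Eb2.eb {X : Type} [TopologicalSpace X] (h : Eb2 X) : Eb X := by
  obtain ⟨Γ, f, h1, h2, h3, h4⟩ := h
  refine ⟨Γ, f, h1, h2, fun x => ?_, 1, fun x γ => ?_⟩
  · have h5 : {γ | f x γ ≠ 0}.Finite := Set.finite_of_encard_le_coe (k := 2) (h4 x)
    have h6 : (f x) =ᶠ[cofinite] fun _ => (0 : ℝ) := by
      rw [Filter.EventuallyEq, Filter.eventually_cofinite]
      exact h5
    exact tendsto_const_nhds.congr' h6.symm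
  · rcases h3 x γ with h | h <;> simp [h]

theorem Eb.co {X : Type} [TopologicalSpace X] (h : Eb X) : Co X := by
  obtain ⟨Γ, f, h1, h2, h3, -⟩ := h
  refine ⟨Γ, f, h1, h2, fun x => ?_⟩
  have h4 : {γ | f x γ ≠ 0} ⊆ ⋃ n : ℕ, {γ | ¬ dist (f x γ) 0 < 1 / ((n : ℝ) + 1)} := by
    intro γ hγ
    have h5 : 0 < dist (f x γ) 0 := dist_pos.2 hγ
    obtain ⟨n, hn⟩ := exists_nat_one_div_lt h5
    exact mem_iUnion.2 ⟨n, not_lt.2 hn.le⟩
  refine Set.Countable.mono h4 (countable_iUnion fun n => Set.Finite.countable ?_)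
  have h6 := Metric.tendsto_nhds.1 (h3 x) (1 / ((n : ℝ) + 1)) (by positivity)
  exact Filter.eventually_cofinite.1 h6

variable {K : Type} [LinearOrder K] {S : Set K} {η : K → ℕ → K}

/-- the points up to `δ` -/
def YY (S : Set K) (η : K → ℕ → K) (δ : K) : Set (XX S η) :=
  {x | x = OnePoint.infty ∨ (∃ ξ < δ, x = ((iso ξ : Psi S η) : XX S η)) ∨
    ∃ α : S, (α : K) ≤ δ ∧ x = ((pt α : Psi S η) : XX S η)}

theorem isClosed_YY (hη : ∀ α ∈ S, IsLadder (η α) α) (δ : K) : IsClosed (YY S η δ) := by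
  rw [← isOpen_compl_iff, OnePoint.isOpen_iff_of_notMem (by
    intro h
    exact h (Or.inl rfl)), isOpen_psi]
  intro α hα
  have h1 : δ < α := by
    by_contra hcon
    exact hα (Or.inr (Or.inr ⟨α, not_lt.1 hcon, rfl⟩))
  obtain ⟨m, hm⟩ := (hη α α.2).tail h1
  filter_upwards [eventually_ge_atTop m] with n hn
  rintro (h | ⟨ξ, hξ, h⟩ | ⟨β, -, h⟩)
  · exact OnePoint.coe_ne_infty _ h
  · have h2 := iso_inj (OnePoint.coe_injective h)
    rw [← h2] at hξ
    exact lt_asymm hξ (hm n hn)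
  · exact iso_ne_pt _ _ (OnePoint.coe_injective h)

theorem xx_cases (x : XX S η) : x = OnePoint.infty ∨ ∃ p : Psi S η, x = (p : XX S η) := by
  induction x using OnePoint.rec with
  | infty => exact Or.inl rfl
  | coe p => exact Or.inr ⟨p, rfl⟩

/-- the index of a point -/
noncomputable def rk (k₀ : K) (x : XX S η) : K :=
  Option.elim (x : Option (K ⊕ S)) k₀ (Sum.elim id Subtype.val)

theorem rk_iso (k₀ : K) (ξ : K) : rk k₀ ((iso ξ : Psi S η) : XX S η) = ξ := rfl

theorem rk_pt (k₀ : K) (α : S) : rk k₀ ((pt α : Psi S η) : XX S η) = α := rfl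

/-- **small closures** -/
theorem small_eb [WellFoundedLT K] {κ : Cardinal.{0}} (h : Reg K κ) (hη : ∀ α ∈ S, IsLadder (η α) α)
    (hS : ∀ δ, ¬ ReflectsAt S δ) (A : Set (XX S η)) (hA : #A < κ) : Eb2 (closure A) := by
  classical
  obtain ⟨k₀, -⟩ := h.bdd_countable (T := ∅) countable_empty
  obtain ⟨b, hb⟩ := h.bdd (rk k₀ '' A) (Cardinal.mk_image_le.trans_lt hA)
  obtain ⟨b', hb'⟩ := h.bdd_countable (countable_singleton b)
  have hbb : b < b' := hb' b rfl
  obtain ⟨m, hm⟩ := exists_dj hη hS b'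
  have hAY : closure A ⊆ YY S η b := by
    refine closure_minimal (fun x hx => ?_) (isClosed_YY hη b)
    rcases xx_cases x with rfl | ⟨p, rfl⟩
    · exact Or.inl rfl
    · rcases psi_cases p with ⟨ξ, rfl⟩ | ⟨α, rfl⟩
      · exact Or.inr (Or.inl ⟨ξ, hb _ ⟨_, hx, rk_iso _ _⟩, rfl⟩)
      · exact Or.inr (Or.inr ⟨α, (hb _ ⟨_, hx, rk_pt _ _⟩).le, rfl⟩)
  -- the clopen sets
  let B : Psi S η → Set (Psi S η) :=
    Sum.elim (fun ξ => {iso ξ}) (fun α => if (α : K) < b' then tl η α (m α) else ∅)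
  have hB1 : ∀ ξ, B (iso ξ) = {iso ξ} := fun ξ => rfl
  have hB2 : ∀ α : S, (α : K) < b' → B (pt α) = tl η α (m α) := fun α hα => if_pos hα
  have hB3 : ∀ α : S, ¬ (α : K) < b' → B (pt α) = ∅ := fun α hα => if_neg hα
  have hBo : ∀ γ, IsOpen (B γ) ∧ IsCompact (B γ) := by
    intro γ
    rcases psi_cases γ with ⟨ξ, rfl⟩ | ⟨α, rfl⟩
    · rw [hB1]
      exact ⟨by simpa using isOpen_iso {ξ}, isCompact_singleton⟩
    · by_cases hα : (α : K) < b'
      · rw [hB2 α hα]
        exact ⟨isOpen_tl _ _, isCompact_tl _ _⟩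
      · rw [hB3 α hα]
        exact ⟨isOpen_empty, isCompact_empty⟩
  let f : closure A → (Psi S η → ℝ) := fun x γ =>
    (((↑) '' B γ : Set (XX S η)).indicator fun _ => (1 : ℝ)) x.1
  have hf1 : ∀ x γ, x.1 ∈ ((↑) '' B γ : Set (XX S η)) → f x γ = 1 := fun x γ hx =>
    indicator_of_mem hx _
  have hf0 : ∀ x γ, x.1 ∉ ((↑) '' B γ : Set (XX S η)) → f x γ = 0 := fun x γ hx =>
    indicator_of_notMem hx _
  have himg : ∀ (p : Psi S η) γ, ((p : XX S η) ∈ ((↑) '' B γ : Set (XX S η))) → p ∈ B γ := by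
    rintro p γ ⟨q, hq, hqp⟩
    rwa [← OnePoint.coe_injective hqp]
  have hinf : ∀ γ, (OnePoint.infty : XX S η) ∉ ((↑) '' B γ : Set (XX S η)) := by
    rintro γ ⟨q, -, hq⟩
    exact OnePoint.coe_ne_infty q hq
  -- separation
  have hs1 : ∀ x y : closure A, x ≠ y → ∀ ξ, x.1 = ((iso ξ : Psi S η) : XX S η) → f x ≠ f y := by
    intro x y hxy ξ hx hfe
    have h1 : f x (iso ξ) = 1 := hf1 _ _ ⟨iso ξ, rfl, hx.symm⟩
    have h2 : f y (iso ξ) = 0 := by
      apply hf0
      rintro ⟨q, hq, hqy⟩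
      rw [hB1, mem_singleton_iff] at hq
      exact hxy (Subtype.ext (by rw [hx, ← hqy, hq]))
    rw [hfe, h2] at h1
    exact zero_ne_one h1
  have hs2 : ∀ x y : closure A, x ≠ y → ∀ α : S, x.1 = ((pt α : Psi S η) : XX S η) →
      (∀ ξ, y.1 ≠ ((iso ξ : Psi S η) : XX S η)) → f x ≠ f y := by
    intro x y hxy α hx hy hfe
    have hαb : (α : K) < b' := by
      rcases hAY x.2 with h' | ⟨ξ, -, h'⟩ | ⟨β, hβ, h'⟩
      · rw [hx] at h'
        exact absurd h' (OnePoint.coe_ne_infty _)
      · rw [hx] at h'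
        exact absurd (OnePoint.coe_injective h').symm (iso_ne_pt _ _)
      · rw [hx] at h'
        rw [pt_inj (OnePoint.coe_injective h')]
        exact hβ.trans_lt hbb
    have h1 : f x (pt α) = 1 := by
      apply hf1
      rw [hB2 α hαb]
      exact ⟨pt α, Or.inl rfl, hx.symm⟩
    have h2 : f y (pt α) = 0 := by
      apply hf0
      rw [hB2 α hαb]
      rintro ⟨q, hq | ⟨n, -, hq⟩, hqy⟩
      · exact hxy (Subtype.ext (by rw [hx, ← hqy, hq]))
      · exact hy _ (by rw [← hqy, hq])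
    rw [hfe, h2] at h1
    exact zero_ne_one h1
  refine ⟨Psi S η, f, ?_, ?_, ?_, ?_⟩
  · exact continuous_pi fun γ =>
      (continuous_ind (isClopen_image hη (hBo γ).1 (hBo γ).2)).comp continuous_subtype_val
  · intro x y hfe
    by_contra hxy
    by_cases hx : ∃ ξ, x.1 = ((iso ξ : Psi S η) : XX S η)
    · obtain ⟨ξ, hx⟩ := hx
      exact hs1 x y hxy ξ hx hfe
    by_cases hy : ∃ ξ, y.1 = ((iso ξ : Psi S η) : XX S η)
    · obtain ⟨ξ, hy⟩ := hy
      exact hs1 y x (Ne.symm hxy) ξ hy hfe.symm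
    push Not at hx hy
    rcases hAY x.2 with hx' | ⟨ξ, -, hx'⟩ | ⟨α, -, hx'⟩
    · rcases hAY y.2 with hy' | ⟨ξ, -, hy'⟩ | ⟨β, -, hy'⟩
      · exact hxy (Subtype.ext (hx'.trans hy'.symm))
      · exact hy ξ hy'
      · exact hs2 y x (Ne.symm hxy) β hy' hx hfe.symm
    · exact hx ξ hx'
    · exact hs2 x y hxy α hx' hy hfe
  · intro x γ
    by_cases hx : x.1 ∈ ((↑) '' B γ : Set (XX S η))
    · exact Or.inr (hf1 x γ hx)
    · exact Or.inl (hf0 x γ hx)
  · intro x
    have hsupp : ∀ γ, f x γ ≠ 0 → x.1 ∈ ((↑) '' B γ : Set (XX S η)) := by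
      intro γ hγ
      by_contra hcon
      exact hγ (hf0 x γ hcon)
    rcases hAY x.2 with hx | ⟨ξ, -, hx⟩ | ⟨α, -, hx⟩
    · have h1 : {γ | f x γ ≠ 0} = ∅ := by
        rw [Set.eq_empty_iff_forall_notMem]
        intro γ hγ
        have h2 := hsupp γ hγ
        rw [hx] at h2
        exact hinf γ h2
      rw [h1]
      simp
    · -- at most one tail contains `ξ`
      have huniq : ∀ α β : S, f x (pt α) ≠ 0 → f x (pt β) ≠ 0 → α = β := by
        have haux : ∀ α β : S, f x (pt α) ≠ 0 → f x (pt β) ≠ 0 → ¬ (α : K) < β := by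
          intro α β hα hβ hlt
          have h1 := hsupp _ hα
          have h2 := hsupp _ hβ
          rw [hx] at h1 h2
          have h1 := himg _ _ h1
          have h2 := himg _ _ h2
          have hβb : (β : K) < b' := by
            by_contra hcon
            rw [hB3 β hcon] at h2
            exact h2
          rw [hB2 α (hlt.trans hβb)] at h1
          rw [hB2 β hβb] at h2
          rcases h1 with h1 | ⟨i, hi, h1⟩
          · exact iso_ne_pt _ _ h1
          rcases h2 with h2 | ⟨j, hj, h2⟩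
          · exact iso_ne_pt _ _ h2
          exact hm α α.2 β β.2 hlt hβb i hi j hj ((iso_inj h1).symm.trans (iso_inj h2))
        intro α β hα hβ
        exact Subtype.ext (le_antisymm (not_lt.1 (haux β α hβ hα)) (not_lt.1 (haux α β hα hβ)))
      by_cases hex : ∃ α : S, f x (pt α) ≠ 0
      · obtain ⟨α, hα⟩ := hex
        have h1 : {γ | f x γ ≠ 0} ⊆ {iso ξ, pt α} := by
          intro γ hγ
          rcases psi_cases γ with ⟨ζ, rfl⟩ | ⟨β, rfl⟩
          · left
            have h2 := hsupp _ hγ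
            rw [hx] at h2
            exact (himg _ _ h2).symm
          · right
            rw [mem_singleton_iff, huniq α β hα hγ]
        exact (Set.encard_le_encard h1).trans (Set.encard_insert_le _ _ |>.trans (by
          rw [Set.encard_singleton]; norm_num))
      · push Not at hex
        have h1 : {γ | f x γ ≠ 0} ⊆ {iso ξ} := by
          intro γ hγ
          rcases psi_cases γ with ⟨ζ, rfl⟩ | ⟨β, rfl⟩
          · have h2 := hsupp _ hγ
            rw [hx] at h2
            exact (himg _ _ h2).symm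
          · exact absurd (hex β) hγ
        refine (Set.encard_le_encard h1).trans ?_
        rw [Set.encard_singleton]
        norm_num
    · have h1 : {γ | f x γ ≠ 0} ⊆ {pt α} := by
        intro γ hγ
        have h2 := hsupp _ hγ
        rw [hx] at h2
        have h2 := himg _ _ h2
        rcases psi_cases γ with ⟨ζ, rfl⟩ | ⟨β, rfl⟩
        · exact absurd (h2 : (pt α : Psi S η) = iso ζ).symm (iso_ne_pt _ _)
        · by_cases hβ : (β : K) < b'
          · rw [hB2 β hβ] at h2
            rcases h2 with h2 | ⟨n, -, h2⟩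
            · exact h2.symm
            · exact absurd h2.symm (iso_ne_pt _ _)
          · rw [hB3 β hβ] at h2
            exact absurd h2 (notMem_empty _)
      refine (Set.encard_le_encard h1).trans ?_
      rw [Set.encard_singleton]
      norm_num

end Pool.Agent.N289.NR
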