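import Pool.Agent.N289.NR.Main

set_option autoImplicit false
set_option linter.unusedSectionVars false

/-!
# The ladder space of a stationary set is not Corson compact
-/

namespace Pool.Agent.N289.NR

open Set Cardinal Filter Topology

variable {K : Type} [LinearOrder K] {S : Set K} {η : K → ℕ → K}

/-- an infinite family of limit points converges to infinity -/
theorem finite_of_far (g : XX S η → ℝ) (hg : Continuous g) (h0 : g OnePoint.infty = 0) (c : ℝ)
    (hc : 0 < c) : {α : S | c ≤ |g ((pt α : Psi S η) : XX S η)|}.Finite := by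
  classical
  by_cases hne : Nonempty S
  swap
  · rw [not_nonempty_iff] at hne
    exact Set.toFinite _
  obtain ⟨α₀⟩ := hne
  let Z : Set (XX S η) := {x | c ≤ |g x|}
  have hZ : IsCompact Z := (isClosed_le continuous_const hg.abs).isCompact
  let W : S → Set (XX S η) := fun α => (↑) '' {x : Psi S η | x = pt α ∨ ∃ ξ, x = iso ξ}
  have hW : ∀ α, IsOpen (W α) := by
    intro α
    refine OnePoint.isOpenEmbedding_coe.isOpenMap _ ?_
    rw [isOpen_psi]
    intro β _
    exact Eventually.of_forall fun n => Or.inr ⟨_, rfl⟩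
  have hcov : Z ⊆ ⋃ α, W α := by
    intro x hx
    rcases xx_cases x with rfl | ⟨p, rfl⟩
    · have hx' : c ≤ |g OnePoint.infty| := hx
      rw [h0, abs_zero] at hx'
      linarith
    · rcases psi_cases p with ⟨ξ, rfl⟩ | ⟨α, rfl⟩
      · exact mem_iUnion.2 ⟨α₀, _, Or.inr ⟨ξ, rfl⟩, rfl⟩
      · exact mem_iUnion.2 ⟨α, _, Or.inl rfl, rfl⟩
  obtain ⟨t, ht⟩ := hZ.elim_finite_subcover W hW hcov
  refine t.finite_toSet.subset fun α hα => ?_
  have h1 := ht (show ((pt α : Psi S η) : XX S η) ∈ Z from hα)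
  simp only [mem_iUnion] at h1
  obtain ⟨β, hβ, q, hq, hqα⟩ := h1
  have h2 := OnePoint.coe_injective hqα
  rcases hq with hq | ⟨ξ, hq⟩
  · rw [h2] at hq
    rw [pt_inj hq]
    exact hβ
  · rw [h2] at hq
    exact absurd hq.symm (iso_ne_pt _ _)

theorem not_co [WellFoundedLT K] {κ : Cardinal.{0}} (h : Reg K κ) (hη : ∀ α ∈ S, IsLadder (η α) α)
    (hS : Stationary S) : ¬ Co (XX S η) := by
  classical
  rintro ⟨Γ, f, hf, hinj, hcount⟩
  let g : XX S η → Γ → ℝ := fun x γ => f x γ - f OnePoint.infty γ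
  have hg : ∀ γ, Continuous fun x => g x γ := fun γ =>
    ((continuous_apply γ).comp hf).sub continuous_const
  have hg0 : ∀ γ, g OnePoint.infty γ = 0 := fun γ => sub_self _
  have hgc : ∀ x, {γ | g x γ ≠ 0}.Countable := by
    intro x
    refine ((hcount x).union (hcount OnePoint.infty)).mono fun γ hγ => ?_
    by_contra hcon
    rw [mem_union, not_or] at hcon
    obtain ⟨h1, h2⟩ := hcon
    have h1 : f x γ = 0 := not_not.1 h1
    have h2 : f OnePoint.infty γ = 0 := not_not.1 h2
    exact hγ (by show f x γ - f OnePoint.infty γ = 0; rw [h1, h2, sub_zero])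
  -- a coordinate
  have hc : ∀ α : S, ∃ γ, g ((pt α : Psi S η) : XX S η) γ ≠ 0 := by
    intro α
    by_contra hcon
    push Not at hcon
    have h1 : f ((pt α : Psi S η) : XX S η) = f OnePoint.infty := by
      funext γ
      exact sub_eq_zero.1 (hcon γ)
    exact OnePoint.coe_ne_infty _ (hinj h1)
  choose c hc using hc
  have hk : ∀ α : S, ∃ k : ℕ, 1 / ((k : ℝ) + 1) < |g ((pt α : Psi S η) : XX S η) (c α)| :=
    fun α => exists_nat_one_div_lt (abs_pos.2 (hc α))
  choose k hk using hk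
  have hn : ∀ α : S, ∃ n : ℕ, 1 / ((k α : ℝ) + 1) < |g ((iso (η α n) : Psi S η) : XX S η) (c α)| := by
    intro α
    have h1 : Tendsto (fun n => ((iso (η α n) : Psi S η) : XX S η)) atTop
        (𝓝 ((pt α : Psi S η) : XX S η)) :=
      (OnePoint.continuous_coe.tendsto _).comp (tendsto_iso α)
    have h2 := (((hg (c α)).abs.tendsto _).comp h1).eventually (lt_mem_nhds (hk α))
    exact h2.exists
  choose n hn using hn
  -- the regressive function
  obtain ⟨i, hi⟩ := h.press hS (fun α => if hα : α ∈ S then η α (n ⟨α, hα⟩) else α) (by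
    intro α hα
    rw [dif_pos hα]
    exact (hη α hα).2.1 _)
  let T : Set S := {α : S | η α (n α) = i}
  have hT : ¬ T.Countable := by
    intro hcon
    apply hi
    refine (hcon.image Subtype.val).mono ?_
    rintro α ⟨hα, h1⟩
    rw [dif_pos hα] at h1
    exact ⟨⟨α, hα⟩, h1, rfl⟩
  let D : Set (ℕ × Γ) := Set.univ ×ˢ {γ | g ((iso i : Psi S η) : XX S η) γ ≠ 0}
  have hD : D.Countable := (countable_univ).prod (hgc _)
  have hTD : ∀ α ∈ T, (k α, c α) ∈ D := by
    intro α hα
    refine ⟨Set.mem_univ _, ?_⟩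
    have h1 := hn α
    have hα' : η α (n α) = i := hα
    rw [hα'] at h1
    intro h2
    rw [h2, abs_zero] at h1
    have : (0 : ℝ) < 1 / ((k α : ℝ) + 1) := by positivity
    linarith
  apply hT
  have hsub : T ⊆ ⋃ y ∈ D, {α : S | 1 / ((y.1 : ℝ) + 1) ≤ |g ((pt α : Psi S η) : XX S η) y.2|} := by
    intro α hα
    exact mem_iUnion₂.2 ⟨(k α, c α), hTD α hα, (hk α).le⟩
  refine (hD.biUnion fun y _ => ?_).mono hsub
  exact (finite_of_far (fun x => g x y.2) (hg y.2) (hg0 y.2) _ (by positivity)).countable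

/-- **the theorem** -/
theorem main (κ : Cardinal.{0}) (hκ : κ.IsRegular) (hω : ℵ₀ < κ) (S : Set κ.ord.ToType)
    (hcof : ∀ α ∈ S, ∃ η : ℕ → κ.ord.ToType, IsLadder η α) (hst : Stationary S)
    (hnr : ∀ δ, ¬ ReflectsAt S δ) :
    ∃ (X : Type) (_ : TopologicalSpace X) (_ : CompactSpace X) (_ : T2Space X),
      (∀ A : Set X, #A < κ → Eb2 (closure A)) ∧ ¬ Co X := by
  classical
  have hη : ∀ α, ∃ η : ℕ → κ.ord.ToType, α ∈ S → IsLadder η α := by
    intro α
    by_cases hα : α ∈ S
    · obtain ⟨η, h⟩ := hcof α hα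
      exact ⟨η, fun _ => h⟩
    · exact ⟨fun _ => α, fun h => absurd h hα⟩
  choose η hη using hη
  have hR := reg_ord hκ hω
  exact ⟨XX S η, inferInstance, inferInstance, t2' hη, fun A hA => small_eb hR hη hnr A hA,
    not_co hR hη hst⟩

end Pool.Agent.N289.NR
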