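import Pool.Agent.N289.NR.Comb

set_option autoImplicit false

/-!
# Pressing down
-/

namespace Pool.Agent.N289.NR

open Set Cardinal

universe u

variable {K : Type u} [LinearOrder K]

/-- initial segments are small and small sets are bounded -/
structure Reg (K : Type u) [LinearOrder K] (κ : Cardinal.{u}) : Prop where
  unc : ℵ₀ < κ
  ini : ∀ k : K, #(Iic k) < κ
  bdd : ∀ T : Set K, #T < κ → ∃ b, ∀ k ∈ T, k < b

theorem Reg.bdd_countable {κ : Cardinal.{u}} (h : Reg K κ) {T : Set K} (hT : T.Countable) :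
    ∃ b, ∀ k ∈ T, k < b :=
  h.bdd T ((Cardinal.le_aleph0_iff_set_countable.2 hT).trans_lt h.unc)

/-- a stationary set contains a point closed under a given function -/
theorem Reg.stat_fc [WellFoundedLT K] {κ : Cardinal.{u}} (h : Reg K κ) {S : Set K}
    (hS : Stationary S) (G : K → K) : ∃ δ ∈ S, ∀ ξ < δ, G ξ < δ := by
  classical
  refine hS {δ | ∀ ξ < δ, G ξ < δ} ⟨fun ξ₀ => ?_, fun β hβ ξ hξ => ?_⟩
  · have h1 : ∀ x : K, ∃ b, x < b ∧ ∀ ξ ≤ x, G ξ < b := by
      intro x
      obtain ⟨b, hb⟩ := h.bdd (insert x (G '' Iic x)) (by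
        refine (Cardinal.mk_insert_le).trans_lt ?_
        exact Cardinal.add_lt_of_lt h.unc.le (Cardinal.mk_image_le.trans_lt (h.ini x))
          (Cardinal.one_lt_aleph0.trans h.unc))
      exact ⟨b, hb _ (mem_insert _ _), fun ξ hξ => hb _ (mem_insert_of_mem _ ⟨ξ, hξ, rfl⟩)⟩
    choose g hg1 hg2 using h1
    let x : ℕ → K := fun n => g^[n] ξ₀
    have hx : ∀ n, x (n + 1) = g (x n) := fun n => Function.iterate_succ_apply' g n ξ₀
    obtain ⟨b₀, hb₀⟩ := h.bdd_countable (countable_range x)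
    have hne : {δ | ∀ n, x n < δ}.Nonempty := ⟨b₀, fun n => hb₀ _ ⟨n, rfl⟩⟩
    refine ⟨wellFounded_lt.min _ hne, fun ξ hξ => ?_, ?_⟩
    · have h2 : ∃ n, ξ ≤ x n := by
        by_contra hcon
        push Not at hcon
        exact wellFounded_lt.not_lt_min _ (show ξ ∈ {δ | ∀ n, x n < δ} from hcon) hξ
      obtain ⟨n, hn⟩ := h2
      have h3 : G ξ < x (n + 1) := by
        rw [hx]
        exact hg2 _ ξ hn
      exact h3.trans (wellFounded_lt.min_mem _ hne (n + 1))
    · exact wellFounded_lt.min_mem _ hne 0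
  · obtain ⟨c, hc, h1, h2⟩ := hβ.2 ξ hξ
    exact (hc ξ h1).trans h2

/-- **pressing down**: a regressive function on a stationary set has an unbounded fibre -/
theorem Reg.press [WellFoundedLT K] {κ : Cardinal.{u}} (h : Reg K κ) {S : Set K}
    (hS : Stationary S) (f : K → K) (hf : ∀ α ∈ S, f α < α) :
    ∃ i, ¬ {α | α ∈ S ∧ f α = i}.Countable := by
  by_contra hcon
  push Not at hcon
  have h1 : ∀ i, ∃ b, ∀ α ∈ S, f α = i → α < b := by
    intro i
    obtain ⟨b, hb⟩ := h.bdd_countable (hcon i)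
    exact ⟨b, fun α hα hi => hb α ⟨hα, hi⟩⟩
  choose b hb using h1
  obtain ⟨δ, hδ, h2⟩ := h.stat_fc hS b
  exact absurd (h2 (f δ) (hf δ hδ)) (not_lt.2 (hb (f δ) δ hδ rfl).le)

theorem reg_ord {κ : Cardinal.{u}} (hκ : κ.IsRegular) (h : ℵ₀ < κ) : Reg κ.ord.ToType κ := by
  have hini : ∀ k : κ.ord.ToType, #(Iio k) < κ := by
    intro k
    have h1 : #(Iio k) < #κ.ord.ToType := Cardinal.mk_Iio_lt k (by
      rw [Cardinal.mk_ord_toType]
      exact (Ordinal.type_toType _).symm)
    rwa [Cardinal.mk_ord_toType] at h1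
  refine ⟨h, fun k => ?_, fun T hT => ?_⟩
  · have h1 : (Iic k : Set κ.ord.ToType) = insert k (Iio k) := by
      ext y
      simp [le_iff_lt_or_eq, or_comm]
    rw [h1]
    refine (Cardinal.mk_insert_le).trans_lt ?_
    exact Cardinal.add_lt_of_lt h.le (hini k) (Cardinal.one_lt_aleph0.trans h)
  · have h1 : #T < Order.cof κ.ord.ToType := by
      rw [Ordinal.cof_toType, hκ.cof_ord]
      exact hT
    have h2 : ¬ IsCofinal T := fun hc => absurd (Order.cof_le hc) (not_le.2 h1)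
    rw [not_isCofinal_iff] at h2
    exact h2

end Pool.Agent.N289.NR
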