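import Pool.Agent.N289.NR.Stat

set_option autoImplicit false
set_option linter.unusedSectionVars false

/-!
# The ladder space and its one point compactification
-/

namespace Pool.Agent.N289.NR

open Set Cardinal Filter Topology

variable {K : Type} [LinearOrder K]

/-- the points of `K` and the points of `S` -/
def Psi (S : Set K) (_ : K → ℕ → K) : Type := K ⊕ S

variable {S : Set K} {η : K → ℕ → K}

/-- the isolated points -/
def iso (ξ : K) : Psi S η := Sum.inl ξ

/-- the limit points -/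
def pt (α : S) : Psi S η := Sum.inr α

/-- a set is open if with a limit point it contains a tail of its ladder -/
instance : TopologicalSpace (Psi S η) where
  IsOpen U := ∀ α : S, (pt α : Psi S η) ∈ U → ∀ᶠ n in atTop, (iso (η α n) : Psi S η) ∈ U
  isOpen_univ := fun _ _ => Eventually.of_forall fun _ => mem_univ _
  isOpen_inter := fun _ _ h1 h2 α hα => (h1 α hα.1).and (h2 α hα.2)
  isOpen_sUnion := fun 𝒰 h α hα => by
    obtain ⟨U, hU, hαU⟩ := hα
    exact (h U hU α hαU).mono fun n hn => ⟨U, hU, hn⟩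

theorem isOpen_psi {U : Set (Psi S η)} :
    IsOpen U ↔ ∀ α : S, (pt α : Psi S η) ∈ U → ∀ᶠ n in atTop, (iso (η α n) : Psi S η) ∈ U := Iff.rfl

theorem iso_inj {ξ ζ : K} (h : (iso ξ : Psi S η) = iso ζ) : ξ = ζ := Sum.inl_injective h

theorem pt_inj {α β : S} (h : (pt α : Psi S η) = pt β) : α = β := Sum.inr_injective h

theorem iso_ne_pt (ξ : K) (α : S) : (iso ξ : Psi S η) ≠ pt α := by
  intro h
  cases h

theorem psi_cases (x : Psi S η) : (∃ ξ, x = iso ξ) ∨ ∃ α, x = pt α := by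
  rcases x with ξ | α
  · exact Or.inl ⟨ξ, rfl⟩
  · exact Or.inr ⟨α, rfl⟩

/-- the tails of the ladders -/
def tl (η : K → ℕ → K) (α : S) (m : ℕ) : Set (Psi S η) := {x | x = pt α ∨ ∃ n ≥ m, x = iso (η α n)}

theorem isOpen_tl (α : S) (m : ℕ) : IsOpen (tl η α m) := by
  rw [isOpen_psi]
  intro β hβ
  rcases hβ with hβ | ⟨n, -, hn⟩
  · rw [pt_inj hβ]
    filter_upwards [eventually_ge_atTop m] with n hn
    exact Or.inr ⟨n, hn, rfl⟩
  · exact absurd hn.symm (iso_ne_pt _ _)

theorem tendsto_iso (α : S) : Tendsto (fun n => (iso (η α n) : Psi S η)) atTop (𝓝 (pt α)) :=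
  tendsto_nhds.2 fun _ hU hα => hU α hα

theorem isCompact_tl (α : S) (m : ℕ) : IsCompact (tl η α m) := by
  have h1 : Tendsto (fun n => (iso (η α (n + m)) : Psi S η)) atTop (𝓝 (pt α)) :=
    (tendsto_iso α).comp (tendsto_add_atTop_nat m)
  have h2 := h1.isCompact_insert_range
  have h3 : tl η α m = insert (pt α) (range fun n => (iso (η α (n + m)) : Psi S η)) := by
    ext x
    constructor
    · rintro (h | ⟨n, hn, h⟩)
      · exact Or.inl h
      · refine Or.inr ⟨n - m, ?_⟩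
        have : n - m + m = n := Nat.sub_add_cancel hn
        simp only [this]
        exact h.symm
    · rintro (h | ⟨n, hn⟩)
      · exact Or.inl h
      · exact Or.inr ⟨n + m, Nat.le_add_left m n, hn.symm⟩
  rw [h3]
  exact h2

theorem isClosed_tl (hη : ∀ α ∈ S, IsLadder (η α) α) (α : S) (m : ℕ) : IsClosed (tl η α m) := by
  rw [← isOpen_compl_iff, isOpen_psi]
  intro β hβ
  have hne : β ≠ α := by
    rintro rfl
    exact hβ (Or.inl rfl)
  have hev : ∀ᶠ n in atTop, ∀ i, η β n ≠ η α i := by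
    rcases lt_or_gt_of_ne (fun h => hne (Subtype.ext h) : (β : K) ≠ α) with h | h
    · obtain ⟨k, hk⟩ := (hη β β.2).ad (hη α α.2) h
      filter_upwards [eventually_ge_atTop k] with n hn using hk n hn
    · obtain ⟨k, hk⟩ := (hη α α.2).ad' (hη β β.2) h
      filter_upwards [eventually_ge_atTop k] with n hn using hk n hn
  filter_upwards [hev] with n hn
  rintro (h | ⟨i, -, h⟩)
  · exact iso_ne_pt _ _ h
  · exact hn i (iso_inj h)

theorem isOpen_iso (A : Set K) : IsOpen ((iso : K → Psi S η) '' A) := by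
  rw [isOpen_psi]
  rintro α ⟨ξ, -, h⟩
  exact absurd h (iso_ne_pt _ _)

theorem isClosed_iso (hη : ∀ α ∈ S, IsLadder (η α) α) (ξ : K) : IsClosed ({iso ξ} : Set (Psi S η)) := by
  rw [← isOpen_compl_iff, isOpen_psi]
  intro α _
  have h1 := (hη α α.2).1
  by_cases h : ∃ k, η α k = ξ
  · obtain ⟨k, hk⟩ := h
    filter_upwards [eventually_gt_atTop k] with n hn h2
    have h3 : η α k < η α n := h1 hn
    rw [iso_inj h2, hk] at h3
    exact lt_irrefl _ h3
  · exact Eventually.of_forall fun n h2 => h ⟨n, iso_inj h2⟩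

/-- the compact open sets: the points and the tails -/
theorem sep (hη : ∀ α ∈ S, IsLadder (η α) α) (x y : Psi S η) (h : x ≠ y) :
    ∃ U : Set (Psi S η), IsOpen U ∧ IsClosed U ∧ ((x ∈ U ∧ y ∉ U) ∨ (y ∈ U ∧ x ∉ U)) := by
  rcases psi_cases x with ⟨ξ, rfl⟩ | ⟨α, rfl⟩
  · exact ⟨{iso ξ}, by simpa using isOpen_iso {ξ}, isClosed_iso hη ξ, Or.inl ⟨rfl, fun h' => h h'.symm⟩⟩
  rcases psi_cases y with ⟨ξ, rfl⟩ | ⟨β, rfl⟩
  · exact ⟨{iso ξ}, by simpa using isOpen_iso {ξ}, isClosed_iso hη ξ, Or.inr ⟨rfl, h⟩⟩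
  refine ⟨tl η α 0, isOpen_tl α 0, isClosed_tl hη α 0, Or.inl ⟨Or.inl rfl, ?_⟩⟩
  rintro (h' | ⟨n, -, h'⟩)
  · exact h h'.symm
  · exact iso_ne_pt _ _ h'.symm

theorem t2 (hη : ∀ α ∈ S, IsLadder (η α) α) : T2Space (Psi S η) := by
  refine ⟨fun x y h => ?_⟩
  obtain ⟨U, h1, h2, h3⟩ := sep hη x y h
  rcases h3 with h3 | h3
  · exact ⟨U, Uᶜ, h1, h2.isOpen_compl, h3.1, h3.2, disjoint_compl_right⟩
  · exact ⟨Uᶜ, U, h2.isOpen_compl, h1, h3.2, h3.1, disjoint_compl_left⟩

instance : WeaklyLocallyCompactSpace (Psi S η) where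
  exists_compact_mem_nhds := by
    intro x
    rcases psi_cases x with ⟨ξ, rfl⟩ | ⟨α, rfl⟩
    · have : IsOpen ({iso ξ} : Set (Psi S η)) := by simpa using isOpen_iso {ξ}
      exact ⟨{iso ξ}, isCompact_singleton, this.mem_nhds rfl⟩
    · exact ⟨tl η α 0, isCompact_tl α 0, (isOpen_tl α 0).mem_nhds (Or.inl rfl)⟩

/-- the compact space -/
abbrev XX (S : Set K) (η : K → ℕ → K) : Type := OnePoint (Psi S η)

theorem t2' (hη : ∀ α ∈ S, IsLadder (η α) α) : T2Space (XX S η) := by
  have := t2 hη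
  infer_instance

theorem isClopen_image (hη : ∀ α ∈ S, IsLadder (η α) α) {B : Set (Psi S η)} (hB : IsOpen B)
    (hB' : IsCompact B) : IsClopen ((↑) '' B : Set (XX S η)) := by
  have := t2' hη
  exact ⟨(hB'.image OnePoint.continuous_coe).isClosed, OnePoint.isOpenEmbedding_coe.isOpenMap B hB⟩

theorem continuous_ind {X : Type} [TopologicalSpace X] {s : Set X} (hs : IsClopen s) :
    Continuous (s.indicator fun _ => (1 : ℝ)) := by
  refine continuous_const.indicator ?_
  simp [hs.frontier_eq]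

end Pool.Agent.N289.NR
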